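import Pool.Agent.V1148.JP6

/-!
# MP_c865e8_ag : every ordered partition is realised, by a line arrangement

The definitions (`S`, `jac`, `HomDeg`, `comb`, `IsMinRes`, `HasClass`) are in
`Pool/Agent/V1148/JPDefs.lean`.
-/

set_option autoImplicit false

namespace Pool.Agent.Results.MP_c865e8_ag.AllPartitions

open Pool.Agent.V1148.JP

/-- For every `t ≥ 1` and every ordered partition `π` of `t` there is a finite set of lines in the
projective plane (given by the linear forms in `L`) whose union is a plane curve of class
`tT_π`. -/
theorem result (t : ℕ) (ht : 1 ≤ t) (π : Composition t) :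
    ∃ L : Multiset (MvPolynomial (Fin 3) ℂ), (∀ ℓ ∈ L, ℓ.IsHomogeneous 1) ∧
      HasClass L.prod (Multiset.card L) π := by
  refine ⟨(stair π).lines, (stair π).lines_hom, ?_⟩
  rw [(stair π).lines_prod, (stair π).lines_card]
  exact hasClass π ht

end Pool.Agent.Results.MP_c865e8_ag.AllPartitions
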